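import Mathlib
import Pool.Agent.Helper22.OracleTools
import Pool.Agent.Helper22.OracleBaire

set_option autoImplicit false

/-!
# Composition of oracle procedures
-/

namespace Pool.Agent.Helper49.Cons

open Turing Function N487b59b3 N68a2faeb N793a5b8e Pool.Agent.Helper22

section

variable {α β γ δ : Type} [N487b59b3 α] [N487b59b3 β] [N487b59b3 γ] [N487b59b3 δ]

/-- The encoding as a word is a polynomial time function. -/
theorem FP_enc : FP fun a : α => bitEncode a := by
  refine PT.quote.mono ?_
  rintro x z ⟨a, rfl, rfl⟩
  exact enc_bits _

/-- A unary number above any polynomial bound of the size is a polynomial time function. -/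
theorem exists_unary_bound {G : ℕ → ℕ} (hG : PB G) :
    ∃ c : α → List Bool, FP c ∧ ∀ a, G (sz a) ≤ (c a).length := by
  obtain ⟨p, hp⟩ := hG
  refine ⟨fun a => un (p.eval (bitEncode a).length), FP.un_poly FP_enc p, fun a => ?_⟩
  rw [un_length]
  exact hp _

/-- the last `n` elements of a list -/
def lastn {β : Type} (l : List β) (n : ℕ) : List β := l.drop (l.drop n).length

theorem lastn_append {β : Type} (u v : List β) : lastn (u ++ v) v.length = v := by
  have h : ((u ++ v).drop v.length).length = u.length := by simp
  rw [lastn, h, List.drop_left]

theorem take_append {β : Type} (u v : List β) :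
    (u ++ v).take ((u ++ v).drop v.length).length = u := by
  have h : ((u ++ v).drop v.length).length = u.length := by simp
  rw [h, List.take_left]

theorem answers_split (M : OracleProc α β) (X : Oracle) (a : α) (m k : ℕ) :
    ∃ u, M.answers X a (m + k) = u ++ M.answers X a m := by
  induction k with
  | zero => exact ⟨[], rfl⟩
  | succ k ih =>
    obtain ⟨u, hu⟩ := ih
    refine ⟨X (M.query (a, M.answers X a (m + k))) :: u, ?_⟩
    rw [← Nat.add_assoc, OracleProc.answers, hu]
    rfl

/-- Oracle procedures can be composed. -/
theorem exists_bind (f : OracleProc α β) (N : OracleProc (α × β) γ) :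
    ∃ K : OracleProc α γ, ∀ X a, K.run X a = N.run X (a, f.run X a) := by
  have hfc := (isPolyTime_iff _).1 f.clock_poly
  have hfq := (isPolyTime_iff _).1 f.query_poly
  have hfo := (isPolyTime_iff _).1 f.out_poly
  have hNc := (isPolyTime_iff _).1 N.clock_poly
  have hNq := (isPolyTime_iff _).1 N.query_poly
  have hNo := (isPolyTime_iff _).1 N.out_poly
  obtain ⟨B0, hB0, hB0m, hB0le⟩ := hfc.bound
  obtain ⟨B1, hB1, hB1m, hB1le⟩ := hfo.bound
  obtain ⟨B2, hB2, hB2m, hB2le⟩ := hNc.bound
  -- the number of queries is polynomially bounded
  have hG : PB fun n => B0 n + B2 (2 * n + 1 + B1 (2 * n + 1 + B0 n)) := by fun_prop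
  obtain ⟨c, hc, hcle⟩ := exists_unary_bound (α := α) hG
  have hbound : ∀ X a, (f.clock a).length + (N.clock (a, f.run X a)).length ≤ (c a).length := by
    intro X a
    refine le_trans ?_ (hcle a)
    have h0 := hB0le a
    rw [sz_bits] at h0
    have h1 : sz (f.run X a) ≤ B1 (2 * sz a + 1 + B0 (sz a)) := by
      refine (hB1le _).trans (hB1m ?_)
      rw [sz_pair, sz_bits, OracleProc.answers_length]
      omega
    have h2 := hB2le (a, f.run X a)
    rw [sz_bits, sz_pair] at h2
    have h3 := hB2m (show 2 * sz a + 1 + sz (f.run X a) ≤
      2 * sz a + 1 + B1 (2 * sz a + 1 + B0 (sz a)) by omega)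
    have h4 : (N.clock (a, f.run X a)).length ≤
      B2 (2 * sz a + 1 + B1 (2 * sz a + 1 + B0 (sz a))) := by
      refine le_trans ?_ h3
      omega
    show _ ≤ B0 (sz a) + B2 (2 * sz a + 1 + B1 (2 * sz a + 1 + B0 (sz a)))
    omega
  -- the parts of the list of answers
  let af : α × List Bool → List Bool := fun s => lastn s.2 (f.clock s.1).length
  let aN : α × List Bool → List Bool := fun s => s.2.take (s.2.drop (f.clock s.1).length).length
  let b : α × List Bool → β := fun s => f.out (s.1, af s)
  have hclk : FP fun s : α × List Bool => f.clock s.1 := hfc.comp FP.fst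
  have haf : FP af := by
    show FP fun s : α × List Bool => s.2.drop (s.2.drop (f.clock s.1).length).length
    exact FP.drop FP.snd (FP.drop FP.snd hclk)
  have haN : FP aN := FP.take FP.snd (FP.drop FP.snd hclk)
  have hb : FP b := hfo.comp (FP.fst.pair haf)
  have hNcl : FP fun s : α × List Bool => N.clock (s.1, b s) := hNc.comp (FP.fst.pair hb)
  let K : OracleProc α γ :=
    { clock := c
      query := fun s => bif decide ((f.clock s.1).length ≤ s.2.length) then
        N.query ((s.1, b s), aN s) else f.query s
      out := fun s => N.out ((s.1, b s), lastn (aN s) (N.clock (s.1, b s)).length)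
      clock_poly := (isPolyTime_iff _).2 hc
      query_poly := (isPolyTime_iff _).2 (by
        have h1 : FP fun s : α × List Bool => decide ((f.clock s.1).length ≤ s.2.length) :=
          FP.length_le hclk FP.snd
        have h2 : FP fun s : α × List Bool => N.query ((s.1, b s), aN s) :=
          hNq.comp ((FP.fst.pair hb).pair haN)
        refine (congrArg FP (funext fun s => ?_)).mp (FP.ite h1 h2 hfq)
        cases decide ((f.clock s.1).length ≤ s.2.length) <;> rfl)
      out_poly := (isPolyTime_iff _).2 (by
        have h1 : FP fun s : α × List Bool => lastn (aN s) (N.clock (s.1, b s)).length :=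
          FP.drop haN (FP.drop haN hNcl)
        exact hNo.comp ((FP.fst.pair hb).pair h1)) }
  have hq1 : ∀ a ans, List.length ans < (f.clock a).length → K.query (a, ans) = f.query (a, ans) := by
    intro a ans h
    show (bif decide ((f.clock a).length ≤ ans.length) then _ else _) = _
    rw [decide_eq_false (by omega)]
    rfl
  have hq2 : ∀ a ans, (f.clock a).length ≤ List.length ans → K.query (a, ans) =
      N.query ((a, b (a, ans)), aN (a, ans)) := by
    intro a ans h
    show (bif decide ((f.clock a).length ≤ ans.length) then _ else _) = _
    rw [decide_eq_true h]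
    rfl
  have h1 : ∀ X a n, n ≤ (f.clock a).length → K.answers X a n = f.answers X a n := by
    intro X a n hn
    induction n with
    | zero => rfl
    | succ n ih =>
      have ih' := ih (by omega)
      rw [OracleProc.answers, OracleProc.answers, ih', hq1 _ _ (by
        rw [OracleProc.answers_length]; omega)]
  have haf' : ∀ X a u, af (a, u ++ f.answers X a (f.clock a).length) =
      f.answers X a (f.clock a).length := by
    intro X a u
    have h := lastn_append u (f.answers X a (f.clock a).length)
    rw [OracleProc.answers_length] at h
    exact h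
  have haN' : ∀ X a u, aN (a, u ++ f.answers X a (f.clock a).length) = u := by
    intro X a u
    have h := take_append u (f.answers X a (f.clock a).length)
    rw [OracleProc.answers_length] at h
    exact h
  have hb' : ∀ X a u, b (a, u ++ f.answers X a (f.clock a).length) = f.run X a := by
    intro X a u
    show f.out (a, af _) = _
    rw [haf']
    rfl
  have h2 : ∀ X a m, K.answers X a ((f.clock a).length + m) =
      N.answers X (a, f.run X a) m ++ f.answers X a (f.clock a).length := by
    intro X a m
    induction m with
    | zero => exact h1 X a _ le_rfl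
    | succ m ih =>
      rw [← Nat.add_assoc, OracleProc.answers, ih, hq2 _ _ (by
        rw [List.length_append, OracleProc.answers_length, OracleProc.answers_length]
        omega), haN', hb']
      rfl
  refine ⟨K, fun X a => ?_⟩
  obtain ⟨m, hm⟩ := Nat.exists_eq_add_of_le (hbound X a)
  have h3 : (c a).length = (f.clock a).length + ((N.clock (a, f.run X a)).length + m) := by
    omega
  have h4 : K.answers X a (K.clock a).length = _ :=
    (congrArg (K.answers X a) h3).trans (h2 X a _)
  obtain ⟨u, hu⟩ := answers_split N X (a, f.run X a) (N.clock (a, f.run X a)).length m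
  show N.out ((a, b (a, K.answers X a (K.clock a).length)), lastn (aN (a, K.answers X a
    (K.clock a).length)) (N.clock (a, b (a, K.answers X a (K.clock a).length))).length) = _
  rw [h4, haN', hb', hu]
  have h5 := lastn_append u (N.answers X (a, f.run X a) (N.clock (a, f.run X a)).length)
  rw [OracleProc.answers_length] at h5
  rw [h5]
  rfl

/-- precomposition with a polynomial time function -/
def pre (M : OracleProc β γ) (h : α → β) (hh : FP h) : OracleProc α γ where
  clock := fun a => M.clock (h a)
  query := fun s => M.query (h s.1, s.2)
  out := fun s => M.out (h s.1, s.2)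
  clock_poly := (isPolyTime_iff _).2 (((isPolyTime_iff _).1 M.clock_poly).comp hh)
  query_poly := (isPolyTime_iff _).2 (((isPolyTime_iff _).1 M.query_poly).comp
    ((hh.comp FP.fst).pair FP.snd))
  out_poly := (isPolyTime_iff _).2 (((isPolyTime_iff _).1 M.out_poly).comp
    ((hh.comp FP.fst).pair FP.snd))

@[simp] theorem pre_run (M : OracleProc β γ) (h : α → β) (hh : FP h) (X : Oracle) (a : α) :
    (pre M h hh).run X a = M.run X (h a) := by
  have h1 : ∀ n, (pre M h hh).answers X a n = M.answers X (h a) n := by
    intro n
    induction n with
    | zero => rfl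
    | succ n ih => rw [OracleProc.answers, OracleProc.answers, ih]; rfl
  rw [OracleProc.run, OracleProc.run, h1]
  rfl

theorem ofFP_run (f : α → β) (hf : FP f) (X : Oracle) (a : α) :
    (OracleProc.ofFP f hf).run X a = f a := rfl

/-- A procedure followed by a polynomial time function of input and result. -/
theorem exists_post (f : OracleProc α β) (g : α × β → γ) (hg : FP g) :
    ∃ K : OracleProc α γ, ∀ X a, K.run X a = g (a, f.run X a) :=
  (exists_bind f (OracleProc.ofFP g hg)).imp fun _ hK X a => hK X a

/-- Apply a procedure to the result of another one. -/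
theorem exists_comp (f : OracleProc α β) (N : OracleProc β γ) :
    ∃ K : OracleProc α γ, ∀ X a, K.run X a = N.run X (f.run X a) := by
  obtain ⟨K, hK⟩ := exists_bind f (pre N (fun s : α × β => s.2) FP.snd)
  exact ⟨K, fun X a => by rw [hK, pre_run]⟩

end

end Pool.Agent.Helper49.Cons
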