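import Mathlib
import Pool.Agent.Helper20.Cons.Defs

set_option autoImplicit false

/-!
# Complexity classes given by acceptance types: definitions
-/

namespace Pool.Agent.Helper49.Cons

open N487b59b3 N68a2faeb N793a5b8e Pool.Agent.Helper22 Pool.Agent.Helper20.Cons

/-- the total length of a list of words, plus the length of the list -/
def tl (ws : List (List Bool)) : ℕ := (ws.map fun w => w.length + 1).sum

/-- An acceptance type. `acc n f` is the verdict on the table `f` of a predicate on tuples of
words: `some true` if it is accepted, `some false` if it is rejected, and `none` if `f` violates
the promise. It must depend only on the values of `f` at tuples of polynomial size. -/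
structure Acc where
  /-- the size of the tuples seen -/
  size : Polynomial ℕ
  /-- the verdict -/
  acc : ℕ → (List (List Bool) → Bool) → Option Bool
  loc : ∀ (n : ℕ) (f g : List (List Bool) → Bool),
    (∀ ws, tl ws ≤ size.eval n → f ws = g ws) → acc n f = acc n g

/-- The operator computed by a pair of oracle procedures with acceptance type `Φ`: the procedure
`g` computes the size parameter, and the procedure `M` the predicate. -/
def verdict (Φ : Acc) (g : OracleProc (List Bool) (List Bool))
    (M : OracleProc (List Bool × List (List Bool)) Bool) (X : Oracle) (x : List Bool) :
    Option Bool :=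
  Φ.acc (g.run X x).length fun ws => M.run X (x, ws)

/-- The class of all languages decided, relative to the oracle `X`, by polynomial time procedures
with acceptance type `Φ`. -/
def Cls (Φ : Acc) (X : Oracle) : DecisionComplexityClass :=
  {L | ∃ (g : OracleProc (List Bool) (List Bool))
    (M : OracleProc (List Bool × List (List Bool)) Bool),
      ∀ x, verdict Φ g M X x = some (L x)}

/-- An acceptance type is syntactic if there is no promise. -/
def Acc.Syntactic (Φ : Acc) : Prop := ∀ n f, Φ.acc n f ≠ none

/-- The level `Σ_k` (if `b`) or `Π_k` (otherwise) of the polynomial hierarchy. -/
def AltP (X : Oracle) (k : ℕ) (b : Bool) : DecisionComplexityClass :=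
  {L | ∃ (p : Polynomial ℕ) (M : OracleProc (List Bool × List (List Bool)) Bool),
    ∀ x, L x = true ↔ QAcc M (p.eval x.length) X x k b []}

end Pool.Agent.Helper49.Cons
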