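import Mathlib
import Pool.Agent.Helper49.Cons.Bind
import Pool.Agent.Helper22.Cons.SimJoin
import Pool.Agent.Helper20.Cons.Defs
import Pool.Agent.Helper49.Cons.AccDefs

set_option autoImplicit false

/-!
# Complexity classes given by acceptance types
-/

namespace Pool.Agent.Helper49.Cons

open Turing Function N487b59b3 N68a2faeb N793a5b8e Pool.Agent.Helper22 Pool.Agent.Helper20.Cons
  Filter Topology

theorem sz_le_tl (ws : List (List Bool)) : sz ws ≤ 6 * tl ws := by
  induction ws with
  | nil => simp
  | cons w ws ih =>
    simp only [tl, List.map_cons, List.sum_cons] at *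
    rw [sz_cons, sz_bits]
    omega

theorem finite_sz {α : Type} [N487b59b3 α] (n : ℕ) : {a : α | sz a ≤ n}.Finite := by
  have h : {w : List Bool | w.length ≤ n}.Finite := List.finite_length_le _ _
  exact (h.preimage (f := fun a : α => bitEncode a) (fun a _ b _ hab =>
    (N487b59b3.toEncoding (α := α)).encode_injective hab)).subset fun a ha => ha

theorem finite_tl (n : ℕ) : {ws : List (List Bool) | tl ws ≤ n}.Finite := by
  refine (finite_sz (6 * n)).subset fun ws hws => ?_
  have := sz_le_tl ws
  simp only [Set.mem_ofPred_eq] at *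
  omega

/-! ## Continuity -/

theorem eventually_verdict (Φ : Acc) (g : OracleProc (List Bool) (List Bool))
    (M : OracleProc (List Bool × List (List Bool)) Bool) (X : Oracle) (x : List Bool) :
    ∀ᶠ Y in 𝓝 X, verdict Φ g M Y x = verdict Φ g M X x := by
  have h := (Filter.eventually_all_finite (finite_tl (Φ.size.eval (g.run X x).length))
    (l := 𝓝 X) (p := fun ws Y => M.run Y (x, ws) = M.run X (x, ws))).2
      fun ws _ => eventually_run M X (x, ws)
  filter_upwards [h, eventually_run g X x] with Y h1 h2
  rw [verdict, verdict, h2]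
  exact Φ.loc _ _ _ fun ws hws => h1 ws hws

/-! ## The left embedding -/

section

variable {α β γ δ : Type} [N487b59b3 α] [N487b59b3 β] [N487b59b3 γ] [N487b59b3 δ]

/-- the procedure that asks the left part of a joined oracle -/
def emb (M : OracleProc α β) : OracleProc α β where
  clock := M.clock
  query := fun s => false :: M.query s
  out := M.out
  clock_poly := M.clock_poly
  query_poly := (isPolyTime_iff _).2 ((FP.const false).cons ((isPolyTime_iff _).1 M.query_poly))
  out_poly := M.out_poly

@[simp] theorem emb_run (M : OracleProc α β) (A T : Oracle) (a : α) :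
    (emb M).run (join A T) a = M.run A a := by
  have h1 : ∀ n, (emb M).answers (join A T) a n = M.answers A a n := by
    intro n
    induction n with
    | zero => rfl
    | succ n ih => rw [OracleProc.answers, OracleProc.answers, ih]; rfl
  rw [OracleProc.run, OracleProc.run, h1]
  rfl

end

theorem cls_embed (Φ : Acc) (A T : Oracle) : Cls Φ A ⊆ Cls Φ (join A T) := by
  rintro L ⟨g, M, h⟩
  refine ⟨emb g, emb M, fun x => ?_⟩
  rw [← h x, verdict, verdict, emb_run]
  simp only [emb_run]

/-! ## Absorbing a polynomial time set -/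

theorem isJoin_join (A T : Oracle) : IsJoin (join A T) A T := ⟨rfl, fun _ => rfl, fun _ => rfl⟩

/-- the polynomial time set `Q` can be absorbed -/
theorem cls_absorb (Φ : Acc) (A : Oracle) {Q : Oracle} (hQ : FP Q) :
    Cls Φ (join A Q) ⊆ Cls Φ A := by
  rintro L ⟨g, M, h⟩
  have ho : FP fun p : List Bool × List Bool => Q p.2 := hQ.comp FP.snd
  refine ⟨pre (simJoin g _ ho) (fun x => ([], x)) (by fun_prop),
    pre (simJoin M _ ho) (fun x => ([], x)) (by fun_prop), fun x => ?_⟩
  rw [← h x, verdict, verdict]
  simp only [pre_run]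
  rw [simJoin_run g ho (J := join A Q) ([], x) (isJoin_join A Q)]
  congr 1
  funext ws
  rw [simJoin_run M ho (J := join A Q) ([], (x, ws)) (isJoin_join A Q)]

/-! ## Closure under reductions -/

theorem cls_reduce (Φ : Acc) (X : Oracle) {L L' : DecisionProblem} (hL' : L' ∈ Cls Φ X)
    (f : OracleProc (List Bool) (List Bool)) (h : ∀ x, L x = L' (f.run X x)) : L ∈ Cls Φ X := by
  obtain ⟨g, M, hM⟩ := hL'
  obtain ⟨g', hg'⟩ := exists_comp f g
  obtain ⟨M', hM'⟩ := exists_bind (pre f (fun s : List Bool × List (List Bool) => s.1) FP.fst)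
    (pre M (fun s : (List Bool × List (List Bool)) × List Bool => (s.2, s.1.2)) (by fun_prop))
  refine ⟨g', M', fun x => ?_⟩
  rw [h x, ← hM, verdict, verdict, hg']
  congr 1
  funext ws
  rw [hM', pre_run, pre_run]

end Pool.Agent.Helper49.Cons
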