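import Mathlib
import Pool.Agent.Helper49.Cons.Acc

set_option autoImplicit false

/-!
# The table of a tally oracle, and transfer of inclusions
-/

namespace Pool.Agent.Helper49.Cons

open Turing Function N487b59b3 N68a2faeb N793a5b8e Pool.Agent.Helper22 Pool.Agent.Helper20.Cons
  Filter Topology

section

variable {α β γ δ : Type} [N487b59b3 α] [N487b59b3 β] [N487b59b3 γ] [N487b59b3 δ]

/-- the queries of a procedure have polynomially bounded length -/
theorem exists_use_bound (M : OracleProc α β) : ∃ B, PB B ∧ Monotone B ∧
    ∀ (X Y : Oracle) (a : α), (∀ q : List Bool, q.length ≤ B (sz a) → X q = Y q) →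
      M.run X a = M.run Y a := by
  obtain ⟨B0, hB0, hB0m, hB0le⟩ := ((isPolyTime_iff _).1 M.clock_poly).bound
  obtain ⟨B1, hB1, hB1m, hB1le⟩ := ((isPolyTime_iff _).1 M.query_poly).bound
  refine ⟨fun n => B1 (2 * n + 1 + B0 n), by fun_prop, fun m n hmn => hB1m ?_, ?_⟩
  · have := hB0m hmn
    omega
  · intro X Y a h
    have key : ∀ n, n ≤ (M.clock a).length → M.answers X a n = M.answers Y a n := by
      intro n hn
      induction n with
      | zero => rfl
      | succ n ih =>
        rw [OracleProc.answers, OracleProc.answers, ih (by omega)]
        congr 1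
        refine h _ ?_
        have h1 := hB1le (a, M.answers Y a n)
        rw [sz_bits, sz_pair, sz_bits, OracleProc.answers_length] at h1
        have h2 := hB0le a
        rw [sz_bits] at h2
        have h3 := hB1m (show 2 * sz a + 1 + 3 * n ≤ 2 * sz a + 1 + B0 (sz a) by omega)
        show _ ≤ B1 (2 * sz a + 1 + B0 (sz a))
        omega
    rw [OracleProc.run, OracleProc.run, key _ le_rfl]

/-- the output of a procedure has polynomially bounded size -/
theorem exists_out_bound (M : OracleProc α β) : ∃ B, PB B ∧ Monotone B ∧
    ∀ (X : Oracle) (a : α), sz (M.run X a) ≤ B (sz a) := by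
  obtain ⟨B0, hB0, hB0m, hB0le⟩ := ((isPolyTime_iff _).1 M.clock_poly).bound
  obtain ⟨B1, hB1, hB1m, hB1le⟩ := ((isPolyTime_iff _).1 M.out_poly).bound
  refine ⟨fun n => B1 (2 * n + 1 + B0 n), by fun_prop, fun m n hmn => hB1m ?_, ?_⟩
  · have := hB0m hmn
    omega
  · intro X a
    have h1 := hB1le (a, M.answers X a (M.clock a).length)
    rw [sz_pair, sz_bits, OracleProc.answers_length] at h1
    have h2 := hB0le a
    rw [sz_bits] at h2
    have h3 := hB1m (show 2 * sz a + 1 + 3 * (M.clock a).length ≤ 2 * sz a + 1 + B0 (sz a) by
      omega)
    exact h1.trans h3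

end

/-! ## Tables -/

/-- does the word consist of `true`s? -/
def allTrue (q : List Bool) : Bool := !(q.any fun b => !b)

theorem allTrue_iff (q : List Bool) : allTrue q = true ↔ ∀ b ∈ q, b = true := by
  simp [allTrue]

/-- the tally oracle with the table `τ` -/
def tab (τ q : List Bool) : Bool := allTrue q && (τ.drop q.length).headD false

theorem tab_FP : FP fun p : List Bool × List Bool => tab p.1 p.2 := by
  have h1 : FP fun p : Bool × List Bool => p.2.any fun b => !b :=
    FP.any_ctx (γ := Bool) (β := Bool) (P := fun p => !p.2) FP.snd.not
  have h2 : FP fun p : List Bool × List Bool => p.2.any fun b => !b :=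
    h1.comp ((FP.const true).pair FP.snd)
  have h3 : FP fun p : List Bool × List Bool => (p.1.drop p.2.length).headD false :=
    FP.headD (FP.drop FP.fst FP.snd) _
  exact h2.not.and h3

/-- the table of `T`, for the words of length less than `n` -/
def table (T : Oracle) (n : ℕ) : List Bool := (List.range n).map fun j => T (un j)

theorem tab_table {T : Oracle} (hT : Tally T) {n : ℕ} {q : List Bool} (hq : q.length < n) :
    tab (table T n) q = T q := by
  by_cases h : ∀ b ∈ q, b = true
  · have h1 : q = un q.length := by
      rw [un, List.eq_replicate_iff]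
      exact ⟨rfl, h⟩
    have h2 : (table T n).drop q.length ≠ [] := by
      rw [Ne, List.drop_eq_nil_iff, table, List.length_map, List.length_range]
      omega
    have h3 : ((table T n).drop q.length).headD false = T (un q.length) := by
      rw [List.headD_eq_head?_getD, List.head?_drop]
      simp [table, hq]
    rw [tab, (allTrue_iff q).2 h, Bool.true_and, h3, ← h1]
  · have h1 : allTrue q = false := by
      rw [Bool.eq_false_iff, Ne, allTrue_iff]
      exact h
    have h2 : T q = false := by
      rw [Bool.eq_false_iff, Ne]
      exact fun h3 => h (hT q h3)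
    rw [tab, h1, h2, Bool.false_and]

theorem table_append (T : Oracle) (n : ℕ) : table T (n + 1) = table T n ++ [T (un n)] := by
  rw [table, List.range_succ, List.map_append]
  rfl

/-- the procedure computing the table of the right part of the oracle -/
theorem exists_tabProc (c : List Bool → List Bool) (hc : FP c) :
    ∃ K : OracleProc (List Bool) (List Bool), ∀ (A T : Oracle) (x : List Bool),
      K.run (join A T) x = cd (table T (c x).length) x := by
  let K : OracleProc (List Bool) (List Bool) :=
    { clock := c
      query := fun s => true :: un s.2.length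
      out := fun s => cd s.2.reverse s.1
      clock_poly := (isPolyTime_iff _).2 hc
      query_poly := (isPolyTime_iff _).2 ((FP.const true).cons (FP.un_length FP.snd))
      out_poly := (isPolyTime_iff _).2 (FP.cd (FP.reverse FP.snd) FP.fst) }
  refine ⟨K, fun A T x => ?_⟩
  have h1 : ∀ n, K.answers (join A T) x n = (table T n).reverse := by
    intro n
    induction n with
    | zero => rfl
    | succ n ih =>
      rw [OracleProc.answers, ih, table_append, List.reverse_append, List.reverse_singleton]
      show join A T (true :: un (table T n).reverse.length) :: _ = _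
      rw [List.length_reverse, table, List.length_map, List.length_range]
      rfl
  show cd (K.answers (join A T) x (c x).length).reverse x = _
  rw [h1, List.reverse_reverse]

/-- **Transfer.** Inclusions between classes persist, if a tally oracle is added and the smaller
class is syntactic. -/
theorem cls_transfer (Φ Ψ : Acc) (hΦ : Φ.Syntactic) {A T : Oracle} (hT : Tally T)
    (h : Cls Φ A ⊆ Cls Ψ A) : Cls Φ (join A T) ⊆ Cls Ψ (join A T) := by
  rintro L ⟨g, M, hL⟩
  -- bounds
  obtain ⟨Bg, hBg, hBgm, hBgle⟩ := exists_use_bound g
  obtain ⟨Bo, hBo, hBom, hBole⟩ := exists_out_bound g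
  obtain ⟨BM, hBM, hBMm, hBMle⟩ := exists_use_bound M
  have hG : PB fun n => Bg n + BM (2 * n + 1 + 6 * Φ.size.eval (Bo n)) + 1 := by
    have h1 : PB fun n => Φ.size.eval (Bo n) := (PB.poly Φ.size).comp hBo
    fun_prop
  obtain ⟨c, hc, hcle⟩ := exists_unary_bound (α := List Bool) hG
  obtain ⟨K, hK⟩ := exists_tabProc c hc
  have ho := tab_FP
  -- the languages with the table as part of the input
  have hsame : ∀ x : List Bool, ∀ q : List Bool, q.length < (c x).length →
      join A (tab (table T (c x).length)) q = join A T q := by
    intro x q hq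
    rcases q with _ | ⟨b, q⟩
    · rfl
    · cases b
      · rfl
      · rw [List.length_cons] at hq
        exact tab_table hT (by omega)
  have hval : ∀ x, verdict Φ g M (join A (tab (table T (c x).length))) x =
      verdict Φ g M (join A T) x := by
    intro x
    have h1 := hcle x
    have h2 : g.run (join A (tab (table T (c x).length))) x = g.run (join A T) x :=
      hBgle _ _ x fun q hq => hsame x q (by omega)
    rw [verdict, verdict, h2]
    refine Φ.loc _ _ _ fun ws hws => hBMle _ _ _ fun q hq => hsame x q ?_
    have h3 := hBole (join A T) x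
    rw [sz_bits] at h3
    have h4 := poly_mono Φ.size (show (g.run (join A T) x).length ≤ Bo (sz x) by omega)
    have h5 := sz_le_tl ws
    have h6 : sz (x, ws) ≤ 2 * sz x + 1 + 6 * Φ.size.eval (Bo (sz x)) := by
      rw [sz_pair]
      simp only at h4
      omega
    have h7 := hBMm h6
    omega
  let V : List Bool → Option Bool := fun z => verdict Φ g M (join A (tab (cf z))) (cs z)
  let L' : DecisionProblem := fun z => (V z).getD false
  have hL' : L' ∈ Cls Φ A := by
    refine ⟨pre (simJoin g _ ho) (fun z => (cf z, cs z)) (by fun_prop),
      pre (simJoin M _ ho) (fun s : List Bool × List (List Bool) => (cf s.1, (cs s.1, s.2)))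
        (by fun_prop), fun z => ?_⟩
    have h1 : verdict Φ (pre (simJoin g _ ho) (fun z => (cf z, cs z)) (by fun_prop))
        (pre (simJoin M _ ho) (fun s : List Bool × List (List Bool) =>
          (cf s.1, (cs s.1, s.2))) (by fun_prop)) A z = V z := by
      show verdict Φ _ _ A z = verdict Φ g M (join A (tab (cf z))) (cs z)
      rw [verdict, verdict]
      simp only [pre_run]
      rw [simJoin_run g ho (J := join A (tab (cf z))) (cf z, cs z) (isJoin_join A _)]
      congr 1
      funext ws
      rw [simJoin_run M ho (J := join A (tab (cf z))) (cf z, (cs z, ws)) (isJoin_join A _)]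
    rw [h1]
    have h2 : V z ≠ none := hΦ _ _
    obtain ⟨b, hb⟩ := Option.ne_none_iff_exists'.1 h2
    show V z = some ((V z).getD false)
    rw [hb]
    rfl
  refine cls_reduce Ψ (join A T) (cls_embed Ψ A T (h hL')) K fun x => ?_
  rw [hK]
  show L x = (verdict Φ g M (join A (tab (cf (cd (table T (c x).length) x))))
    (cs (cd (table T (c x).length) x))).getD false
  rw [cf_cd, cs_cd, hval, hL]
  rfl

end Pool.Agent.Helper49.Cons
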