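import Mathlib
import Pool.Agent.Helper49.Cons.Table

set_option autoImplicit false

/-!
# The levels of the polynomial hierarchy as classes of acceptance types
-/

namespace Pool.Agent.Helper49.Cons

open Turing Function N487b59b3 N68a2faeb N793a5b8e Pool.Agent.Helper22 Pool.Agent.Helper20.Cons
  Filter Topology

/-- `k` alternating quantifiers over words of length at most `n` in front of `f`; the first one is
`∃` if the Boolean is `true`; the words quantified so far are collected, latest first. -/
def alt (n : ℕ) (f : List (List Bool) → Bool) : ℕ → Bool → List (List Bool) → Prop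
  | 0, _, ws => f ws = true
  | k + 1, true, ws => ∃ w : List Bool, w.length ≤ n ∧ alt n f k false (w :: ws)
  | k + 1, false, ws => ∀ w : List Bool, w.length ≤ n → alt n f k true (w :: ws)

theorem alt_eq_QAcc (M : OracleProc (List Bool × List (List Bool)) Bool) (n : ℕ) (X : Oracle)
    (x : List Bool) (k : ℕ) (b : Bool) (ws : List (List Bool)) :
    alt n (fun ws => M.run X (x, ws)) k b ws ↔ QAcc M n X x k b ws := by
  induction k generalizing b ws with
  | zero => rfl
  | succ k ih =>
    cases b
    · simp only [alt, QAcc, ih]
    · simp only [alt, QAcc, ih]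

theorem alt_congr {n : ℕ} {f g : List (List Bool) → Bool} {N : ℕ}
    (h : ∀ ws, tl ws ≤ N → f ws = g ws) (k : ℕ) (b : Bool) (ws : List (List Bool))
    (hws : tl ws + k * (n + 1) ≤ N) : alt n f k b ws ↔ alt n g k b ws := by
  induction k generalizing b ws with
  | zero => rw [alt, alt, h ws (by omega)]
  | succ k ih =>
    have h1 : ∀ w : List Bool, w.length ≤ n → ∀ b,
        (alt n f k b (w :: ws) ↔ alt n g k b (w :: ws)) := by
      intro w hw b
      refine ih b _ ?_
      have h2 : tl (w :: ws) = w.length + 1 + tl ws := by simp [tl]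
      rw [h2]
      have h3 : (k + 1) * (n + 1) = k * (n + 1) + (n + 1) := by ring
      omega
    cases b
    · simp only [alt]
      exact forall_congr' fun w => imp_congr_right fun hw => h1 w hw true
    · simp only [alt]
      exact exists_congr fun w => and_congr_right fun hw => h1 w hw false

/-- Quantifiers over shorter words are quantifiers over longer words that are cut. -/
theorem alt_take {m n : ℕ} (hmn : m ≤ n) (f : List (List Bool) → Bool) (k : ℕ) (b : Bool)
    (ws : List (List Bool)) : alt n (fun ws => f (ws.map (List.take m))) k b ws ↔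
      alt m f k b (ws.map (List.take m)) := by
  induction k generalizing b ws with
  | zero => rfl
  | succ k ih =>
    cases b
    · simp only [alt, ih, List.map_cons]
      constructor
      · intro h w hw
        have h1 := h w (hw.trans hmn)
        rwa [List.take_of_length_le hw] at h1
      · intro h w _
        exact h _ (by simp)
    · simp only [alt, ih, List.map_cons]
      constructor
      · rintro ⟨w, _, h⟩
        exact ⟨_, by simp, h⟩
      · rintro ⟨w, hw, h⟩
        refine ⟨w, hw.trans hmn, ?_⟩
        rwa [List.take_of_length_le hw]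

open Classical in
/-- the acceptance type of the levels of the polynomial hierarchy -/
noncomputable def accAlt (k : ℕ) (b : Bool) : Acc where
  size := Polynomial.C k * (Polynomial.X + 1)
  acc := fun n f => some (decide (alt n f k b []))
  loc := by
    intro n f g h
    congr 1
    rw [decide_eq_decide]
    refine alt_congr (N := k * (n + 1)) (fun ws hws => h ws ?_) k b [] ?_
    · simpa using hws
    · simp [tl]

theorem accAlt_acc (k : ℕ) (b : Bool) (n : ℕ) (f : List (List Bool) → Bool) (c : Bool) :
    (accAlt k b).acc n f = some c ↔ (c = true ↔ alt n f k b []) := by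
  classical
  show some (decide (alt n f k b [])) = some c ↔ _
  rw [Option.some_inj]
  by_cases h : alt n f k b []
  · simp [h, eq_comm]
  · cases c <;> simp [h]

theorem accAlt_syntactic (k : ℕ) (b : Bool) : (accAlt k b).Syntactic := by
  intro n f
  simp [accAlt]

theorem AltP_true (X : Oracle) (k : ℕ) : AltP X k true = SigmaP X k := rfl

theorem FP_map_take : FP fun p : List Bool × List (List Bool) =>
    p.2.map (List.take p.1.length) :=
  FP.map_ctx (γ := List Bool) (β := List Bool) (δ := List Bool)
    (h := fun p => p.2.take p.1.length) (FP.take FP.snd FP.fst)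

theorem cls_accAlt (X : Oracle) (k : ℕ) (b : Bool) : Cls (accAlt k b) X = AltP X k b := by
  apply Set.Subset.antisymm
  · rintro L ⟨g, M, h⟩
    obtain ⟨B, ⟨p, hp⟩, hBm, hB⟩ := exists_out_bound g
    obtain ⟨M', hM'⟩ := exists_bind
      (pre g (fun s : List Bool × List (List Bool) => s.1) FP.fst)
      (pre M (fun s : (List Bool × List (List Bool)) × List Bool =>
        (s.1.1, s.1.2.map (List.take s.2.length))) (by
          have h1 : FP fun s : (List Bool × List (List Bool)) × List Bool =>
            s.1.2.map (List.take s.2.length) :=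
            FP_map_take.comp (f := fun s : (List Bool × List (List Bool)) × List Bool =>
              (s.2, s.1.2)) (by fun_prop)
          exact FP.pair (by fun_prop) h1))
    refine ⟨p.comp (3 * Polynomial.X), M', fun x => ?_⟩
    have hx := (accAlt_acc k b _ _ _).1 (h x)
    rw [hx, ← alt_eq_QAcc]
    have h2 : (fun ws => M'.run X (x, ws)) = fun ws =>
        (fun ws => M.run X (x, ws)) (ws.map (List.take (g.run X x).length)) := by
      funext ws
      rw [hM', pre_run, pre_run]
    rw [h2, alt_take (m := (g.run X x).length) ?_ (fun ws => M.run X (x, ws)) k b []]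
    · rfl
    · have h3 := (hB X x).trans (hp _)
      rw [sz_bits, sz_bits] at h3
      rw [Polynomial.eval_comp]
      simp only [Polynomial.eval_mul, Polynomial.eval_X, Polynomial.eval_ofNat]
      omega
  · rintro L ⟨p, M, h⟩
    refine ⟨OracleProc.ofFP (fun x : List Bool => un (p.eval x.length))
      (FP.un_poly FP.id p), M, fun x => ?_⟩
    refine (accAlt_acc k b _ _ _).2 ?_
    rw [ofFP_run, un_length, h x, alt_eq_QAcc]

/-! ## NP and coNP -/

theorem AltP_one (X : Oracle) : AltP X 1 true = NPo X := by
  apply Set.Subset.antisymm
  · rintro L ⟨p, M, h⟩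
    refine ⟨p, pre M (fun s : List Bool × List Bool => (s.1, [s.2])) (by fun_prop), fun x => ?_⟩
    rw [h x]
    simp only [QAcc, Accepts, pre_run]
  · rintro L ⟨p, M, h⟩
    refine ⟨p, pre M (fun s : List Bool × List (List Bool) => (s.1, s.2.headD [])) (by
      have h1 : FP fun s : List Bool × List (List Bool) => s.2.headD [] := FP.headD FP.snd _
      exact FP.pair (by fun_prop) h1), fun x => ?_⟩
    rw [h x]
    simp only [QAcc, Accepts, pre_run, List.headD_cons]

theorem exists_not {α : Type} [N487b59b3 α] (M : OracleProc α Bool) :
    ∃ K : OracleProc α Bool, ∀ X a, K.run X a = !(M.run X a) :=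
  exists_post M (fun s : α × Bool => !s.2) FP.snd.not

theorem QAcc_not {M K : OracleProc (List Bool × List (List Bool)) Bool}
    (h : ∀ X a, K.run X a = !(M.run X a)) (n : ℕ) (X : Oracle) (x : List Bool) (k : ℕ) (b : Bool)
    (ws : List (List Bool)) : QAcc K n X x k b ws ↔ ¬ QAcc M n X x k (!b) ws := by
  induction k generalizing b ws with
  | zero => simp [QAcc, h]
  | succ k ih =>
    cases b
    · simp only [QAcc, ih, Bool.not_false, Bool.not_true]
      push Not
      rfl
    · simp only [QAcc, ih, Bool.not_false, Bool.not_true]
      push Not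
      rfl

theorem mem_AltP_compl (X : Oracle) (k : ℕ) (b : Bool) (L : DecisionProblem) :
    L ∈ AltP X k (!b) ↔ Lᶜ ∈ AltP X k b := by
  have key : ∀ (b : Bool) (L : DecisionProblem), L ∈ AltP X k (!b) → Lᶜ ∈ AltP X k b := by
    rintro b L ⟨p, M, h⟩
    obtain ⟨K, hK⟩ := exists_not M
    refine ⟨p, K, fun x => ?_⟩
    rw [compl_true, h x, QAcc_not hK]
  refine ⟨key b L, fun h => ?_⟩
  have h1 := key (!b) Lᶜ (by rwa [Bool.not_not])
  rwa [compl_compl] at h1

theorem AltP_one' (X : Oracle) : AltP X 1 false = coNPo X := by
  ext L
  rw [show (false : Bool) = !true from rfl, mem_AltP_compl, AltP_one]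
  rfl

theorem AltP_zero (X : Oracle) (b : Bool) : AltP X 0 b = Po X := by
  apply Set.Subset.antisymm
  · rintro L ⟨p, M, h⟩
    refine ⟨pre M (fun x : List Bool => (x, [])) (by fun_prop), fun x => ?_⟩
    rw [pre_run, Bool.eq_iff_iff, h x]
    rfl
  · rintro L ⟨M, h⟩
    refine ⟨0, pre M (fun s : List Bool × List (List Bool) => s.1) FP.fst, fun x => ?_⟩
    rw [h x]
    simp only [QAcc, pre_run]

end Pool.Agent.Helper49.Cons
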