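import Mathlib
import Pool.Agent.Helper49.Cons.Alt
import Pool.Agent.Helper20.Cons.Rec

set_option autoImplicit false

/-!
# Conservation for all classes at once
-/

namespace Pool.Agent.Helper49.Cons

open Turing Function N487b59b3 N68a2faeb N793a5b8e Pool.Agent.Helper22 Pool.Agent.Helper20.Cons
  Filter Topology

theorem cls_countable (Φ : Acc) (X : Oracle) : (Cls Φ X).Countable := by
  let F : OracleProc (List Bool) (List Bool) × OracleProc (List Bool × List (List Bool)) Bool →
      DecisionProblem := fun c x => (verdict Φ c.1 c.2 X x).getD false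
  refine (Set.countable_range F).mono ?_
  rintro L ⟨g, M, h⟩
  exact ⟨(g, M), funext fun x => by simp [F, h x]⟩

theorem verdict_locConst (Φ : Acc) (g : OracleProc (List Bool) (List Bool))
    (M : OracleProc (List Bool × List (List Bool)) Bool) : LocConst (verdict Φ g M) :=
  fun X x => eventually_verdict Φ g M X x

/-- Inclusions go down, if the tally oracle adds nothing to the languages of the first class. -/
theorem cls_descend (Φ Ψ : Acc) {A T : Oracle} (h : Cls Φ (join A T) ⊆ Cls Ψ (join A T))
    (hcons : ∀ g M, ∀ L ∈ Cls Φ A, verdict Ψ g M (join A T) = (fun x => some (L x)) →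
      ∃ Q : Oracle, Q ∈ P ∧ verdict Ψ g M (join A Q) = verdict Ψ g M (join A T)) :
    Cls Φ A ⊆ Cls Ψ A := by
  intro L hL
  obtain ⟨g, M, hgM⟩ := h (cls_embed Φ A T hL)
  obtain ⟨Q, hQ, hQ'⟩ := hcons g M L hL (funext hgM)
  refine cls_absorb Ψ A ((isPolyTime_iff _).1 hQ) ⟨g, M, fun x => ?_⟩
  rw [hQ', hgM]

/-- For every oracle `A`, all countable families of acceptance types and of locally constant
operators and every countable set `BB` of values there is a tally oracle `T`, with the universal
bits (the third item), such that with `X = join A T`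
* an operator with a value in `BB` at `X` has the same value at `join A Q` for some tally set `Q`
  in P;
* inclusions between classes relative to `X` hold relative to `A`;
* inclusions of syntactic classes in classes relative to `A` hold relative to `X`. -/
theorem exists_tally_all (A : Oracle) {ι : Type} [Countable ι] (Φ : ι → Acc)
    {κ : Type} [Countable κ] (Ψ : κ → Oracle → List Bool → Option Bool)
    (hΨ : ∀ e, LocConst (Ψ e)) (BB : Set (List Bool → Option Bool)) (hBB : BB.Countable) :
    ∃ (T : Oracle) (l : ℕ → ℕ), Tally T ∧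
      (∀ i n, T (un (pos i n)) = true ↔ l i ≤ n ∧ ∀ n', l i ≤ n' → n' ≤ n →
        Good (join A T) i n') ∧
      (∀ e, Ψ e (join A T) ∈ BB → ∃ Q : Oracle, Tally Q ∧ Q ∈ P ∧
        Ψ e (join A Q) = Ψ e (join A T)) ∧
      (∀ i j, Cls (Φ i) (join A T) ⊆ Cls (Φ j) (join A T) → Cls (Φ i) A ⊆ Cls (Φ j) A) ∧
      (∀ i j, (Φ i).Syntactic → Cls (Φ i) A ⊆ Cls (Φ j) A →
        Cls (Φ i) (join A T) ⊆ Cls (Φ j) (join A T)) := by
  -- all operators
  let E : Type := Unit ⊕ κ ⊕ (ι × OracleProc (List Bool) (List Bool) ×
    OracleProc (List Bool × List (List Bool)) Bool)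
  let Ω : E → Oracle → List Bool → Option Bool
    | .inl _ => fun _ _ => none
    | .inr (.inl e) => Ψ e
    | .inr (.inr c) => verdict (Φ c.1) c.2.1 c.2.2
  have hΩ : ∀ e, LocConst (Ω e) := by
    rintro (_ | e | c)
    · exact fun X y => Eventually.of_forall fun _ => rfl
    · exact hΨ e
    · exact verdict_locConst _ _ _
  have hEc : Countable E := by
    have : Countable (Unit ⊕ κ ⊕ (ι × OracleProc (List Bool) (List Bool) ×
      OracleProc (List Bool × List (List Bool)) Bool)) := inferInstance
    exact this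
  have hEn : Nonempty E := ⟨.inl ()⟩
  obtain ⟨s, hs⟩ := exists_surjective_nat E
  -- all values
  let BB' : Set (List Bool → Option Bool) :=
    {fun _ => none} ∪ BB ∪ ⋃ i, (fun (L : DecisionProblem) x => some (L x)) '' Cls (Φ i) A
  have hBB' : BB'.Countable := by
    refine ((Set.countable_singleton _).union hBB).union (Set.countable_iUnion fun i => ?_)
    exact (cls_countable _ _).image _
  obtain ⟨T, l, hT, hbit, hcons⟩ := exists_tally A (fun n => Ω (s n)) (fun n => hΩ _) BB' hBB'
    ⟨fun _ => none, Or.inl (Or.inl rfl)⟩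
  have hcons' : ∀ e, Ω e (join A T) ∈ BB' → ∃ Q : Oracle, Tally Q ∧ Q ∈ P ∧
      Ω e (join A Q) = Ω e (join A T) := by
    intro e he
    obtain ⟨n, rfl⟩ := hs e
    exact hcons n he
  refine ⟨T, l, hT, hbit, fun e he => hcons' (.inr (.inl e)) (Or.inl (Or.inr he)),
    fun i j h => cls_descend _ _ h fun g M L hL hLv => ?_, fun i j hi h => cls_transfer _ _ hi hT h⟩
  obtain ⟨Q, -, hQ, hQ'⟩ := hcons' (.inr (.inr (j, g, M))) (by
    refine Or.inr (Set.mem_iUnion.2 ⟨i, L, hL, ?_⟩)
    exact hLv.symm)
  exact ⟨Q, hQ, hQ'⟩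

end Pool.Agent.Helper49.Cons
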